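import Pool.Agent.Helper52.KP.StW

/-! # Project KP, module ILG: an integral over `ℂ^m` -/

set_option autoImplicit false

namespace Pool.Agent.Helper64.KP

open MeasureTheory Filter
open Pool.Agent.Helper52.KP (StILG)
open scoped Topology

theorem ilg_deriv (a : ℝ) (ha : 0 < a) (n : ℕ) (r : ℝ) :
    HasDerivAt (fun r : ℝ => -(1 / (2 * ((n : ℝ) + 1))) * ((a + r ^ 2) ^ (n + 1))⁻¹)
      (r * ((a + r ^ 2) ^ (n + 2))⁻¹) r := by
  have h1 : HasDerivAt (fun r : ℝ => a + r ^ 2) (2 * r) r := by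
    have := (hasDerivAt_pow 2 r).const_add a
    simpa using this
  have hpos : 0 < a + r ^ 2 := by positivity
  have h2 := (h1.fun_pow (n + 1)).fun_inv (by positivity)
  have h3 := h2.const_mul (-(1 / (2 * ((n : ℝ) + 1))))
  refine h3.congr_deriv ?_
  have hn : (n : ℝ) + 1 ≠ 0 := by positivity
  have hne : a + r ^ 2 ≠ 0 := hpos.ne'
  simp only [Nat.add_sub_cancel, Nat.cast_add, Nat.cast_one]
  field_simp
  ring

theorem ilg_tend (a : ℝ) (n : ℕ) :
    Tendsto (fun r : ℝ => -(1 / (2 * ((n : ℝ) + 1))) * ((a + r ^ 2) ^ (n + 1))⁻¹) atTop (𝓝 0) := by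
  have h1 : Tendsto (fun r : ℝ => (a + r ^ 2) ^ (n + 1)) atTop atTop := by
    refine (tendsto_pow_atTop (Nat.succ_ne_zero n)).comp ?_
    exact tendsto_atTop_add_const_left _ _ (tendsto_pow_atTop two_ne_zero)
  have h2 := (tendsto_inv_atTop_zero.comp h1).const_mul (-(1 / (2 * ((n : ℝ) + 1))))
  rw [mul_zero] at h2
  exact h2

theorem ilg_int (a : ℝ) (ha : 0 < a) (n : ℕ) :
    IntegrableOn (fun r : ℝ => r * ((a + r ^ 2) ^ (n + 2))⁻¹) (Set.Ioi 0) := by
  refine integrableOn_Ioi_deriv_of_nonneg' (fun x _ => ilg_deriv a ha n x) (fun x hx => ?_)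
    (ilg_tend a n)
  have hx' : 0 < x := hx
  positivity

theorem ilg_val (a : ℝ) (ha : 0 < a) (n : ℕ) :
    ∫ r in Set.Ioi (0 : ℝ), r * ((a + r ^ 2) ^ (n + 2))⁻¹ =
      1 / (2 * ((n : ℝ) + 1) * a ^ (n + 1)) := by
  have h := integral_Ioi_of_hasDerivAt_of_nonneg' (a := (0 : ℝ))
    (fun x _ => ilg_deriv a ha n x) (fun x hx => by
      have hx' : 0 < x := hx
      positivity) (ilg_tend a n)
  rw [h]
  have hn : (n : ℝ) + 1 ≠ 0 := by positivity
  have hne : a ≠ 0 := ha.ne'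
  simp only [ne_eq, OfNat.ofNat_ne_zero, not_false_eq_true, zero_pow, add_zero]
  field_simp
  ring

theorem ilg_one (a : ℝ) (ha : 0 < a) (n : ℕ) :
    ∫⁻ w : ℂ, ENNReal.ofReal (((a + ‖w‖ ^ 2) ^ (n + 2))⁻¹) =
      ENNReal.ofReal (Real.pi / (((n : ℝ) + 1) * a ^ (n + 1))) := by
  have hI : Integrable (fun w : ℂ => ((a + ‖w‖ ^ 2) ^ (n + 2))⁻¹) := by
    have := (integrable_fun_norm_addHaar (volume : Measure ℂ)
      (f := fun r : ℝ => ((a + r ^ 2) ^ (n + 2))⁻¹)).2 (by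
        rw [Complex.finrank_real_complex]
        simpa using ilg_int a ha n)
    exact this
  rw [← ofReal_integral_eq_lintegral_ofReal hI (Eventually.of_forall fun w => by
    show 0 ≤ ((a + ‖w‖ ^ 2) ^ (n + 2))⁻¹
    positivity)]
  congr 1
  have h := integral_fun_norm_addHaar (volume : Measure ℂ)
      (fun r : ℝ => ((a + r ^ 2) ^ (n + 2))⁻¹)
  rw [h, Complex.finrank_real_complex]
  have h1 : (volume : Measure ℂ).real (Metric.ball 0 1) = Real.pi := by
    simp [Measure.real, Complex.volume_ball]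
  rw [h1]
  have h2 : ∫ y in Set.Ioi (0 : ℝ), y ^ (2 - 1) • ((a + y ^ 2) ^ (n + 2))⁻¹ =
      1 / (2 * ((n : ℝ) + 1) * a ^ (n + 1)) := by
    rw [← ilg_val a ha n]
    simp
  rw [h2]
  have hn : (n : ℝ) + 1 ≠ 0 := by positivity
  have hne : a ≠ 0 := ha.ne'
  simp only [nsmul_eq_mul, smul_eq_mul]
  push_cast
  field_simp

theorem ilg_sq_succ (m : ℕ) (y : Fin (m + 1) → ℂ) :
    Helper52.KP.sq y = ‖y 0‖ ^ 2 + Helper52.KP.sq (fun j : Fin m => y j.succ) := by
  unfold Helper52.KP.sq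
  rw [Fin.sum_univ_succ]

theorem ilg_sq_nonneg (m : ℕ) (y : Fin m → ℂ) : 0 ≤ Helper52.KP.sq y :=
  Finset.sum_nonneg fun _ _ => by positivity

theorem ilg_sq_meas (m : ℕ) : Measurable (fun y : Fin m → ℂ => Helper52.KP.sq y) := by
  unfold Helper52.KP.sq
  fun_prop

theorem ilg_main (m : ℕ) : ∫⁻ y : Fin m → ℂ, ENNReal.ofReal (((1 + Helper52.KP.sq y) ^ (m + 1))⁻¹) =
    ENNReal.ofReal (Real.pi ^ m / m.factorial) := by
  induction m with
  | zero =>
    rw [lintegral_unique]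
    have h1 : (volume : Measure (Fin 0 → ℂ)) Set.univ = 1 := by
      rw [volume_pi, Measure.pi_of_empty]
      simp
    rw [h1]
    simp [Helper52.KP.sq]
  | succ m ih =>
    have hmp := volume_preserving_piFinSuccAbove (fun _ : Fin (m + 1) => ℂ) 0
    have hf : ∀ y : Fin (m + 1) → ℂ, ENNReal.ofReal (((1 + Helper52.KP.sq y) ^ (m + 1 + 1))⁻¹) =
        (fun q : ℂ × (Fin m → ℂ) =>
          ENNReal.ofReal ((((1 + Helper52.KP.sq q.2) + ‖q.1‖ ^ 2) ^ (m + 2))⁻¹))
          (MeasurableEquiv.piFinSuccAbove (fun _ : Fin (m + 1) => ℂ) 0 y) := by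
      intro y
      have : Helper52.KP.sq y = ‖y 0‖ ^ 2 + Helper52.KP.sq (fun j : Fin m => y j.succ) := ilg_sq_succ m y
      rw [this]
      show _ = ENNReal.ofReal ((((1 + Helper52.KP.sq (fun j : Fin m => y ((0 : Fin (m + 1)).succAbove j))) +
        ‖y 0‖ ^ 2) ^ (m + 2))⁻¹)
      simp only [Fin.zero_succAbove]
      rw [show 1 + (‖y 0‖ ^ 2 + Helper52.KP.sq (fun j : Fin m => y j.succ)) =
        1 + Helper52.KP.sq (fun j : Fin m => y j.succ) + ‖y 0‖ ^ 2 by ring]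
    rw [lintegral_congr hf]
    refine (hmp.lintegral_comp_emb (MeasurableEquiv.measurableEmbedding _)
      (fun q : ℂ × (Fin m → ℂ) =>
        ENNReal.ofReal ((((1 + Helper52.KP.sq q.2) + ‖q.1‖ ^ 2) ^ (m + 2))⁻¹))).trans ?_
    have hmeas : Measurable (fun q : ℂ × (Fin m → ℂ) =>
        ENNReal.ofReal ((((1 + Helper52.KP.sq q.2) + ‖q.1‖ ^ 2) ^ (m + 2))⁻¹)) := by
      have h1 : Measurable (fun q : ℂ × (Fin m → ℂ) => Helper52.KP.sq q.2) :=
        (ilg_sq_meas m).comp measurable_snd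
      refine ENNReal.measurable_ofReal.comp ?_
      exact (((measurable_const.add h1).add (measurable_fst.norm.pow_const 2)).pow_const _).inv
    rw [Measure.volume_eq_prod, lintegral_prod_symm _ hmeas.aemeasurable]
    have h2 : ∀ y : Fin m → ℂ, ∫⁻ x : ℂ,
        ENNReal.ofReal ((((1 + Helper52.KP.sq y) + ‖x‖ ^ 2) ^ (m + 2))⁻¹) =
        ENNReal.ofReal (Real.pi / ((m : ℝ) + 1)) * ENNReal.ofReal (((1 + Helper52.KP.sq y) ^ (m + 1))⁻¹) := by
      intro y
      have hp : 0 < 1 + Helper52.KP.sq y := by linarith [ilg_sq_nonneg m y]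
      rw [ilg_one (1 + Helper52.KP.sq y) hp m, ← ENNReal.ofReal_mul (by positivity)]
      congr 1
      field_simp
    rw [lintegral_congr h2, lintegral_const_mul _ (by
      exact ENNReal.measurable_ofReal.comp ((measurable_const.add (ilg_sq_meas m)).pow_const _).inv),
      ih, ← ENNReal.ofReal_mul (by positivity)]
    congr 1
    rw [Nat.factorial_succ]
    push_cast
    field_simp
    ring

theorem hILG : StILG := by
  intro m
  have h : ∀ y : Fin m → ℂ, ENNReal.ofReal ((1 / 2) ^ m * ((1 + Helper52.KP.sq y) ^ (m + 1))⁻¹) =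
      ENNReal.ofReal ((1 / 2) ^ m) * ENNReal.ofReal (((1 + Helper52.KP.sq y) ^ (m + 1))⁻¹) := by
    intro y
    rw [ENNReal.ofReal_mul (by positivity)]
  rw [lintegral_congr h, lintegral_const_mul _ (by
      exact ENNReal.measurable_ofReal.comp ((measurable_const.add (ilg_sq_meas m)).pow_const _).inv),
      ilg_main, ← ENNReal.ofReal_mul (by positivity)]
  congr 1
  rw [div_pow, div_pow, one_pow]
  field_simp

end Pool.Agent.Helper64.KP
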