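import Pool.Agent.Helper85.KP.StE

/-! # Project KP, module EHS: the Hilbert-Schmidt norm -/

set_option autoImplicit false

namespace Pool.Agent.Helper64.KP

open MeasureTheory Filter Pool.Agent.Helper52.KP Pool.Agent.Helper85.KP
open scoped ContDiff ComplexOrder Topology

private theorem ehs_open (C : Cone) : IsOpen C.U := by
  have h : Continuous fun z : Fin C.m → ℂ => ev C.Δ z := MvPolynomial.continuous_eval _
  exact isOpen_compl_singleton.preimage h

private theorem ehs_ev (m : ℕ) (P : MvPolynomial (Fin m) ℂ) :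
    Continuous fun z : Fin m → ℂ => ev P z := MvPolynomial.continuous_eval _

/-- the weight -/
private noncomputable def rho (C : Cone) (z : Fin C.m → ℂ) : ℝ :=
  ‖ev C.J z‖ ^ 2 * Real.exp (-C.u z)

private theorem rho_nonneg (C : Cone) (z : Fin C.m → ℂ) : 0 ≤ rho C z := by
  unfold rho
  positivity

private theorem ehs_rho_meas (C : Cone) (hC : Good C) :
    AEStronglyMeasurable (rho C) (volume.restrict C.U) := by
  have hu : ContinuousOn C.u C.U := hC.usm.continuousOn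
  have h1 : ContinuousOn (rho C) C.U := by
    unfold rho
    exact ((ehs_ev _ _).norm.pow 2).continuousOn.mul (Real.continuous_exp.comp_continuousOn hu.neg)
  exact h1.aestronglyMeasurable (ehs_open C).measurableSet

/-- integrability of the squares -/
private theorem ehs_sq (hM : StMOM) (C : Cone) (hC : Good C) (D : ℕ)
    (f : MvPolynomial (Fin C.m) ℂ) (hf : f ∈ C.R D) :
    IntegrableOn (fun z => ‖ev f z‖ ^ 2 * rho C z) C.U := by
  have h := ((hM C hC).2.2.2 D f hf).2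
  refine h.congr (Eventually.of_forall fun z => ?_)
  show ‖ev f z * ev C.J z‖ ^ 2 * Real.exp (-C.u z) = ‖ev f z‖ ^ 2 * rho C z
  unfold rho
  rw [norm_mul, mul_pow]
  ring

/-- integrability of weighted squares -/
private theorem ehs_wsq (hM : StMOM) (C : Cone) (hC : Good C) (D : ℕ)
    (f : MvPolynomial (Fin C.m) ℂ) (hf : f ∈ C.R D) (g : (Fin C.m → ℂ) → ℝ) (B c : ℝ)
    (hg : Measurable g) (hB : ∀ z ∈ C.U, |g z| ≤ B * C.u z) (l : ℝ) :
    IntegrableOn (fun z => (l - (g z - c)) ^ 2 * ‖ev f z‖ ^ 2 * rho C z) C.U := by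
  obtain ⟨a, b, ha, hab⟩ := hC.ubd
  obtain ⟨B', hB'⟩ := hC.bdd D f hf
  have h1 := ((hM C hC).1 (2 * D)).1
  have h2 := ((hM C hC).1 (2 * D + 2)).1
  have h3 : IntegrableOn (fun z => (2 * (l + c) ^ 2 * (B' ^ 2 * (a⁻¹) ^ (2 * D))) *
      (C.u z ^ (2 * D) * Real.exp (-C.u z) * ‖ev C.J z‖ ^ 2) +
      (2 * B ^ 2 * (B' ^ 2 * (a⁻¹) ^ (2 * D))) *
      (C.u z ^ (2 * D + 2) * Real.exp (-C.u z) * ‖ev C.J z‖ ^ 2)) C.U :=
    (h1.const_mul _).add (h2.const_mul _)
  refine Integrable.mono' h3 ?_ ?_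
  · refine AEStronglyMeasurable.mul ?_ (ehs_rho_meas C hC)
    refine Measurable.aestronglyMeasurable ?_
    exact ((measurable_const.sub (hg.sub measurable_const)).pow_const 2).mul
      ((ehs_ev _ f).norm.pow 2).measurable
  · refine (ae_restrict_iff' (ehs_open C).measurableSet).2 (Eventually.of_forall fun z hz => ?_)
    have hr := rho_nonneg C z
    rw [Real.norm_of_nonneg (by positivity)]
    have hsz : 0 < C.sz z := hC.Xpos z hz
    have hu1 : a * C.sz z ≤ C.u z := (hab z hz).1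
    have hu0 : 0 < C.u z := lt_of_lt_of_le (by positivity) hu1
    have hszu : C.sz z ≤ a⁻¹ * C.u z := by
      rw [le_inv_mul_iff₀ ha]
      exact hu1
    have hf2 : ‖ev f z‖ ^ 2 ≤ B' ^ 2 * (a⁻¹) ^ (2 * D) * C.u z ^ (2 * D) := by
      have h4 : ‖ev f z‖ ^ 2 ≤ (B' * C.sz z ^ D) ^ 2 :=
        pow_le_pow_left₀ (norm_nonneg _) (hB' z) 2
      have h5 : C.sz z ^ (2 * D) ≤ (a⁻¹ * C.u z) ^ (2 * D) :=
        pow_le_pow_left₀ hsz.le hszu _
      calc ‖ev f z‖ ^ 2 ≤ (B' * C.sz z ^ D) ^ 2 := h4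
        _ = B' ^ 2 * C.sz z ^ (2 * D) := by
            rw [mul_pow, ← pow_mul, Nat.mul_comm D 2]
        _ ≤ B' ^ 2 * (a⁻¹ * C.u z) ^ (2 * D) := by
            exact mul_le_mul_of_nonneg_left h5 (sq_nonneg _)
        _ = B' ^ 2 * (a⁻¹) ^ (2 * D) * C.u z ^ (2 * D) := by
            rw [mul_pow]
            ring
    have hg2 : (l - (g z - c)) ^ 2 ≤ 2 * (l + c) ^ 2 + 2 * B ^ 2 * C.u z ^ 2 := by
      have h6 : g z ^ 2 ≤ (B * C.u z) ^ 2 := by
        rw [← sq_abs (g z)]
        exact pow_le_pow_left₀ (abs_nonneg _) (hB z hz) 2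
      nlinarith [sq_nonneg (l + c + g z)]
    have h7 : (l - (g z - c)) ^ 2 * ‖ev f z‖ ^ 2 ≤ (2 * (l + c) ^ 2 + 2 * B ^ 2 * C.u z ^ 2) *
        (B' ^ 2 * (a⁻¹) ^ (2 * D) * C.u z ^ (2 * D)) :=
      mul_le_mul hg2 hf2 (sq_nonneg _) (by positivity)
    calc (l - (g z - c)) ^ 2 * ‖ev f z‖ ^ 2 * rho C z ≤ (2 * (l + c) ^ 2 + 2 * B ^ 2 * C.u z ^ 2) *
        (B' ^ 2 * (a⁻¹) ^ (2 * D) * C.u z ^ (2 * D)) * rho C z :=
          mul_le_mul_of_nonneg_right h7 hr
      _ = _ := by
        unfold rho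
        ring

/-- integrability of products -/
private theorem ehs_prod (hM : StMOM) (C : Cone) (hC : Good C) (D : ℕ)
    (f h : MvPolynomial (Fin C.m) ℂ) (hf : f ∈ C.R D) (hh : h ∈ C.R D)
    (g : (Fin C.m → ℂ) → ℝ) (B c : ℝ) (hg : Measurable g) (hB : ∀ z ∈ C.U, |g z| ≤ B * C.u z)
    (l : ℝ) :
    IntegrableOn (fun z => ((l - (g z - c) : ℝ) : ℂ) * ev f z * star (ev h z) *
      ((rho C z : ℝ) : ℂ)) C.U ∧
    ‖∫ z in C.U, ((l - (g z - c) : ℝ) : ℂ) * ev f z * star (ev h z) * ((rho C z : ℝ) : ℂ)‖ ≤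
      (∫ z in C.U, (l - (g z - c)) ^ 2 * ‖ev f z‖ ^ 2 * rho C z) / 2 +
      (∫ z in C.U, ‖ev h z‖ ^ 2 * rho C z) / 2 := by
  have h1 := ehs_wsq hM C hC D f hf g B c hg hB l
  have h2 := ehs_sq hM C hC D h hh
  have h3 : IntegrableOn (fun z => (l - (g z - c)) ^ 2 * ‖ev f z‖ ^ 2 * rho C z / 2 +
      ‖ev h z‖ ^ 2 * rho C z / 2) C.U := (h1.div_const 2).add (h2.div_const 2)
  have hb : ∀ z, ‖((l - (g z - c) : ℝ) : ℂ) * ev f z * star (ev h z) * ((rho C z : ℝ) : ℂ)‖ ≤
      (l - (g z - c)) ^ 2 * ‖ev f z‖ ^ 2 * rho C z / 2 + ‖ev h z‖ ^ 2 * rho C z / 2 := by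
    intro z
    have hr := rho_nonneg C z
    rw [norm_mul, norm_mul, norm_mul, norm_star, Complex.norm_real, Complex.norm_real,
      Real.norm_of_nonneg hr]
    have h4 : ‖l - (g z - c)‖ * ‖ev f z‖ * ‖ev h z‖ ≤
        ((l - (g z - c)) ^ 2 * ‖ev f z‖ ^ 2 + ‖ev h z‖ ^ 2) / 2 := by
      have h5 : ‖l - (g z - c)‖ ^ 2 = (l - (g z - c)) ^ 2 := by
        rw [Real.norm_eq_abs, sq_abs]
      nlinarith [sq_nonneg (‖l - (g z - c)‖ * ‖ev f z‖ - ‖ev h z‖)]
    calc ‖l - (g z - c)‖ * ‖ev f z‖ * ‖ev h z‖ * rho C z ≤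
        ((l - (g z - c)) ^ 2 * ‖ev f z‖ ^ 2 + ‖ev h z‖ ^ 2) / 2 * rho C z :=
          mul_le_mul_of_nonneg_right h4 hr
      _ = _ := by ring
  have hi : IntegrableOn (fun z => ((l - (g z - c) : ℝ) : ℂ) * ev f z * star (ev h z) *
      ((rho C z : ℝ) : ℂ)) C.U := by
    refine Integrable.mono' h3 ?_ (Eventually.of_forall hb)
    refine AEStronglyMeasurable.mul ?_
      (Complex.continuous_ofReal.comp_aestronglyMeasurable (ehs_rho_meas C hC))
    refine Measurable.aestronglyMeasurable ?_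
    refine ((Complex.measurable_ofReal.comp
      (measurable_const.sub (hg.sub measurable_const))).mul (ehs_ev _ f).measurable).mul ?_
    exact (ehs_ev _ h).star.measurable
  refine ⟨hi, ?_⟩
  calc ‖∫ z in C.U, ((l - (g z - c) : ℝ) : ℂ) * ev f z * star (ev h z) * ((rho C z : ℝ) : ℂ)‖
      ≤ ∫ z in C.U, ((l - (g z - c)) ^ 2 * ‖ev f z‖ ^ 2 * rho C z / 2 +
        ‖ev h z‖ ^ 2 * rho C z / 2) :=
        norm_integral_le_of_norm_le h3 (Eventually.of_forall hb)
    _ = _ := by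
      rw [integral_add (h1.div_const 2) (h2.div_const 2), integral_div, integral_div]

private theorem ehs_ipp (C : Cone) (f h : MvPolynomial (Fin C.m) ℂ) :
    ipp C f h = ∫ z in C.U, ev f z * star (ev h z) * ((rho C z : ℝ) : ℂ) := by
  unfold ipp inn
  refine integral_congr_ae (Eventually.of_forall fun z => ?_)
  show ev f z * ev C.J z * star (ev h z * ev C.J z) * ((Real.exp (-C.u z) : ℝ) : ℂ) =
    ev f z * star (ev h z) * ((rho C z : ℝ) : ℂ)
  unfold rho
  have h1 : ev C.J z * star (ev C.J z) = ((‖ev C.J z‖ ^ 2 : ℝ) : ℂ) := by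
    rw [Complex.star_def, Complex.mul_conj, Complex.normSq_eq_norm_sq]
  rw [star_mul']
  push_cast
  push_cast at h1
  rw [← h1]
  ring

private theorem ehs_ipp_self (C : Cone) (f : MvPolynomial (Fin C.m) ℂ) :
    ipp C f f = ((∫ z in C.U, ‖ev f z‖ ^ 2 * rho C z : ℝ) : ℂ) := by
  rw [ehs_ipp, ← integral_complex_ofReal]
  refine integral_congr_ae (Eventually.of_forall fun z => ?_)
  show ev f z * star (ev f z) * ((rho C z : ℝ) : ℂ) = ((‖ev f z‖ ^ 2 * rho C z : ℝ) : ℂ)
  have h1 : ev f z * star (ev f z) = ((‖ev f z‖ ^ 2 : ℝ) : ℂ) := by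
    rw [Complex.star_def, Complex.mul_conj, Complex.normSq_eq_norm_sq]
  rw [h1]
  push_cast
  ring

theorem hEHS0 (hM : StMOM) : StEHS := by
  intro C hC D N _ s lam hs g B c hg hB w hw hwj
  have hsR : ∀ j, s j ∈ C.R D := by
    intro j
    rw [← hs.span]
    exact Submodule.subset_span ⟨j, rfl⟩
  have key : ∀ j, (ipp C ((lam j : ℂ) • s j - w j) ((lam j : ℂ) • s j - w j)).re ≤
      ∫ z in C.U, ((lam j : ℝ) - (g z - c)) ^ 2 * ‖ev (s j) z‖ ^ 2 * rho C z := by
    intro j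
    have hv : (lam j : ℂ) • s j - w j ∈ C.R D :=
      (C.R D).sub_mem ((C.R D).smul_mem _ (hsR j)) (hw j)
    obtain ⟨v, hvd⟩ : ∃ v, v = (lam j : ℂ) • s j - w j := ⟨_, rfl⟩
    rw [← hvd] at hv ⊢
    -- the expansion
    have e1 : ipp C v v = ∫ z in C.U, (((lam j : ℝ) - (g z - c) : ℝ) : ℂ) * ev (s j) z *
        star (ev v z) * ((rho C z : ℝ) : ℂ) := by
      have a1 := (ehs_prod hM C hC D (s j) v (hsR j) hv (fun _ => 0) 0 0 measurable_const
        (fun z hz => by simp) (lam j : ℝ)).1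
      have a2 := (ehs_prod hM C hC D (s j) v (hsR j) hv g B c hg hB 0).1
      have a3 := (ehs_prod hM C hC D (w j) v (hw j) hv (fun _ => 0) 0 0 measurable_const
        (fun z hz => by simp) 1).1
      have e2 : ipp C v v = (∫ z in C.U, (((lam j : ℝ) - (0 - 0) : ℝ) : ℂ) * ev (s j) z *
          star (ev v z) * ((rho C z : ℝ) : ℂ)) -
          ∫ z in C.U, (((1 : ℝ) - (0 - 0) : ℝ) : ℂ) * ev (w j) z *
          star (ev v z) * ((rho C z : ℝ) : ℂ) := by
        rw [← integral_sub a1 a3, ehs_ipp]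
        refine integral_congr_ae (Eventually.of_forall fun z => ?_)
        show ev v z * star (ev v z) * ((rho C z : ℝ) : ℂ) = _
        have e3 : ev v z = (lam j : ℂ) * ev (s j) z - ev (w j) z := by
          rw [hvd]
          simp [ev, MvPolynomial.smul_eval]
        have e4 : ev v z * star (ev v z) * ((rho C z : ℝ) : ℂ) =
            ((lam j : ℂ) * ev (s j) z - ev (w j) z) * star (ev v z) * ((rho C z : ℝ) : ℂ) := by
          rw [← e3]
        rw [e4]
        push_cast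
        ring
      have e5 : ∫ z in C.U, (((1 : ℝ) - (0 - 0) : ℝ) : ℂ) * ev (w j) z *
          star (ev v z) * ((rho C z : ℝ) : ℂ) = -∫ z in C.U, (((0 : ℝ) - (g z - c) : ℝ) : ℂ) *
          ev (s j) z * star (ev v z) * ((rho C z : ℝ) : ℂ) := by
        have e6 := hwj j v hv
        rw [ehs_ipp] at e6
        have e7 : ∫ z in C.U, (((1 : ℝ) - (0 - 0) : ℝ) : ℂ) * ev (w j) z *
            star (ev v z) * ((rho C z : ℝ) : ℂ) =
            ∫ z in C.U, ev (w j) z * star (ev v z) * ((rho C z : ℝ) : ℂ) := by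
          refine integral_congr_ae (Eventually.of_forall fun z => ?_)
          show (((1 : ℝ) - (0 - 0) : ℝ) : ℂ) * ev (w j) z *
            star (ev v z) * ((rho C z : ℝ) : ℂ) = _
          push_cast
          ring
        rw [e7, e6, ← integral_neg]
        refine integral_congr_ae (Eventually.of_forall fun z => ?_)
        show ((g z - c : ℝ) : ℂ) * ev (s j) z * star (ev v z) *
          ((‖ev C.J z‖ ^ 2 * Real.exp (-C.u z) : ℝ) : ℂ) =
          -((((0 : ℝ) - (g z - c) : ℝ) : ℂ) * ev (s j) z * star (ev v z) * ((rho C z : ℝ) : ℂ))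
        unfold rho
        push_cast
        ring
      rw [e2, e5, sub_neg_eq_add, ← integral_add a1 a2]
      refine integral_congr_ae (Eventually.of_forall fun z => ?_)
      show (((lam j : ℝ) - (0 - 0) : ℝ) : ℂ) * ev (s j) z *
          star (ev v z) * ((rho C z : ℝ) : ℂ) + (((0 : ℝ) - (g z - c) : ℝ) : ℂ) *
          ev (s j) z * star (ev v z) * ((rho C z : ℝ) : ℂ) =
          (((lam j : ℝ) - (g z - c) : ℝ) : ℂ) * ev (s j) z *
        star (ev v z) * ((rho C z : ℝ) : ℂ)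
      push_cast
      ring
    have e8 := (ehs_prod hM C hC D (s j) v (hsR j) hv g B c hg hB (lam j : ℝ)).2
    rw [← e1, ehs_ipp_self, Complex.norm_real] at e8
    rw [ehs_ipp_self, Complex.ofReal_re]
    have e9 := Real.le_norm_self (∫ z in C.U, ‖ev v z‖ ^ 2 * rho C z)
    linarith
  calc ∑ j, (ipp C ((lam j : ℂ) • s j - w j) ((lam j : ℂ) • s j - w j)).re ≤
      ∑ j, ∫ z in C.U, ((lam j : ℝ) - (g z - c)) ^ 2 * ‖ev (s j) z‖ ^ 2 * rho C z :=
        Finset.sum_le_sum fun j _ => key j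
    _ = ∫ z in C.U, ∑ j, ((lam j : ℝ) - (g z - c)) ^ 2 * ‖ev (s j) z‖ ^ 2 * rho C z := by
        rw [integral_finsetSum]
        intro j _
        exact ehs_wsq hM C hC D (s j) (hsR j) g B c hg hB (lam j : ℝ)
    _ = _ := by
        refine integral_congr_ae (Eventually.of_forall fun z => ?_)
        show ∑ j, ((lam j : ℝ) - (g z - c)) ^ 2 * ‖ev (s j) z‖ ^ 2 * rho C z =
          PP s lam 0 z * (F2 s lam 0 z + (F1 s lam 0 z - (g z - c)) ^ 2) *
            Real.exp (-C.u z) * ‖ev C.J z‖ ^ 2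
        have p0 : PP s lam 0 z = ∑ j, ‖ev (s j) z‖ ^ 2 := by
          unfold PP
          refine Finset.sum_congr rfl fun j _ => ?_
          rw [zero_mul, Real.exp_zero, one_mul]
        have p1 : PPn 1 s lam 0 z = ∑ j, (lam j : ℝ) * ‖ev (s j) z‖ ^ 2 := by
          unfold PPn
          refine Finset.sum_congr rfl fun j _ => ?_
          rw [zero_mul, Real.exp_zero, mul_one, pow_one]
        have p2 : PPn 2 s lam 0 z = ∑ j, (lam j : ℝ) ^ 2 * ‖ev (s j) z‖ ^ 2 := by
          unfold PPn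
          refine Finset.sum_congr rfl fun j _ => ?_
          rw [zero_mul, Real.exp_zero, mul_one]
        have q : ∑ j, ((lam j : ℝ) - (g z - c)) ^ 2 * ‖ev (s j) z‖ ^ 2 * rho C z =
            (PPn 2 s lam 0 z - 2 * (g z - c) * PPn 1 s lam 0 z +
              (g z - c) ^ 2 * PP s lam 0 z) * rho C z := by
          rw [p0, p1, p2, Finset.mul_sum, Finset.mul_sum, ← Finset.sum_sub_distrib,
            ← Finset.sum_add_distrib, Finset.sum_mul]
          refine Finset.sum_congr rfl fun j _ => ?_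
          ring
        rw [q]
        by_cases hP : PP s lam 0 z = 0
        · have hz : ∀ j, ‖ev (s j) z‖ ^ 2 = 0 := by
            intro j
            rw [p0] at hP
            exact (Finset.sum_eq_zero_iff_of_nonneg fun i _ => sq_nonneg _).1 hP j
              (Finset.mem_univ j)
          have z1 : PPn 1 s lam 0 z = 0 := by
            rw [p1]
            exact Finset.sum_eq_zero fun j _ => by rw [hz j, mul_zero]
          have z2 : PPn 2 s lam 0 z = 0 := by
            rw [p2]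
            exact Finset.sum_eq_zero fun j _ => by rw [hz j, mul_zero]
          rw [hP, z1, z2]
          ring
        · unfold F2 F1 rho
          field_simp
          ring

theorem hEHS : StMOM → StIPP → StERD → StEHS := fun h _ _ => hEHS0 h

end Pool.Agent.Helper64.KP
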