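import Pool.Agent.Helper52.KP.StF

/-! # Project KP, module JCN: Jacobians, local square integrability -/

set_option autoImplicit false

namespace Pool.Agent.Helper64.KP

open Pool.Agent.Helper67.NO MeasureTheory Filter Pool.Agent.Helper52.KP
open scoped ContDiff ComplexOrder Topology

universe u

/-- `dz` of a holomorphic function -/
private theorem jcn_dz {m : ℕ} (j : Fin m) (h : (Fin m → ℂ) → ℂ) (z : Fin m → ℂ)
    (hd : DifferentiableAt ℂ h z) : dz j h z = fderiv ℂ h z (Pi.single j 1) := by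
  have e : fderiv ℝ h z = (fderiv ℂ h z).restrictScalars ℝ :=
    (hd.hasFDerivAt.restrictScalars ℝ).fderiv
  unfold dz
  rw [e]
  have e2 : (Pi.single j Complex.I : Fin m → ℂ) = Complex.I • Pi.single j (1 : ℂ) := by
    rw [← Pi.single_smul, smul_eq_mul, mul_one]
  rw [e2]
  simp only [ContinuousLinearMap.coe_restrictScalars', map_smul, smul_eq_mul]
  have h2 : Complex.I * (Complex.I * fderiv ℂ h z (Pi.single j 1)) =
      -fderiv ℂ h z (Pi.single j 1) := by
    rw [← mul_assoc, Complex.I_mul_I]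
    ring
  rw [h2]
  ring

private theorem jcn_det {m : ℕ} (A : (Fin m → ℂ) →L[ℂ] (Fin m → ℂ)) :
    |(A.restrictScalars ℝ).det| = ‖A.det‖ ^ 2 := by
  have h : (A.restrictScalars ℝ).det = Algebra.norm ℝ A.det :=
    LinearMap.det_restrictScalars (f := (A : (Fin m → ℂ) →ₗ[ℂ] (Fin m → ℂ)))
  rw [h, Algebra.norm_complex_apply, Complex.normSq_eq_norm_sq, abs_of_nonneg (sq_nonneg _)]

/-- the matrix of a composition -/
private theorem jcn_mat {m : ℕ} (A : Fin m → ((Fin m → ℂ) →L[ℂ] ℂ))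
    (T : (Fin m → ℂ) →L[ℂ] (Fin m → ℂ)) :
    (Matrix.of fun i j : Fin m => A i (T (Pi.single j 1))).det =
      (Matrix.of fun i j : Fin m => A i (Pi.single j 1)).det * T.det := by
  have hT : T.det = (LinearMap.toMatrix' (T : (Fin m → ℂ) →ₗ[ℂ] (Fin m → ℂ))).det := by
    rw [LinearMap.det_toMatrix']
  rw [hT, ← Matrix.det_mul]
  congr 1
  ext i j
  rw [Matrix.mul_apply, Matrix.of_apply]
  have h1 : T (Pi.single j 1) = ∑ l, T (Pi.single j 1) l • (Pi.single l (1 : ℂ) : Fin m → ℂ) := by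
    funext q
    simp [Finset.sum_apply, Pi.single_apply]
  rw [h1, map_sum]
  refine Finset.sum_congr rfl fun l _ => ?_
  rw [map_smul, smul_eq_mul, Matrix.of_apply, mul_comm]
  congr 1

/-- directional derivatives of entire functions are continuous -/
private theorem jcn_cont {m : ℕ} (F : (Fin m → ℂ) → ℂ) (hF : Differentiable ℂ F)
    (v : Fin m → ℂ) : Continuous fun w => fderiv ℂ F w v := by
  have h : ∀ w, fderiv ℂ F w v = (2 * Real.pi * Complex.I : ℂ)⁻¹ •
      ∮ z in C(0, 1), ((z - 0) ^ 2)⁻¹ • F (w + z • v) := by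
    intro w
    have h0 : Differentiable ℂ (fun z : ℂ => w + z • v) := by fun_prop
    have h1 : Differentiable ℂ (fun z : ℂ => F (w + z • v)) := hF.comp h0
    rw [Complex.two_pi_I_inv_smul_circleIntegral_sub_sq_inv_smul_of_differentiable isOpen_univ
      (Set.subset_univ _) h1.differentiableOn (Metric.mem_ball_self one_pos)]
    have h2 : HasDerivAt (fun z : ℂ => w + z • v) v 0 := by
      have h3 := ((hasDerivAt_id (0 : ℂ)).smul_const v).const_add w
      simpa using h3
    have h4 : HasFDerivAt F (fderiv ℂ F w) (w + (0 : ℂ) • v) := by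
      rw [zero_smul, add_zero]
      exact (hF w).hasFDerivAt
    exact (h4.comp_hasDerivAt 0 h2).deriv.symm
  suffices h' : Continuous fun w : Fin m → ℂ =>
      ∮ z in C(0, 1), ((z - 0) ^ 2)⁻¹ • F (w + z • v) by
    have h'' : Continuous fun w : Fin m → ℂ => (2 * Real.pi * Complex.I : ℂ)⁻¹ *
      ∮ z in C(0, 1), ((z - 0) ^ 2)⁻¹ • F (w + z • v) := continuous_const.mul h'
    have e : (fun w => fderiv ℂ F w v) = fun w : Fin m → ℂ => (2 * Real.pi * Complex.I : ℂ)⁻¹ *
      ∮ z in C(0, 1), ((z - 0) ^ 2)⁻¹ • F (w + z • v) := funext h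
    rw [e]
    exact h''
  unfold circleIntegral
  refine intervalIntegral.continuous_parametric_intervalIntegral_of_continuous'
    (f := fun (w : Fin m → ℂ) (θ : ℝ) => deriv (circleMap 0 1) θ •
      (((circleMap 0 1 θ - 0) ^ 2)⁻¹ • F (w + circleMap 0 1 θ • v))) ?_ _ _
  have hc : Continuous (circleMap (0 : ℂ) 1) := continuous_circleMap 0 1
  have hne : ∀ θ : ℝ, circleMap (0 : ℂ) 1 θ - 0 ≠ 0 := fun θ => by
    rw [sub_zero]
    exact circleMap_ne_center one_ne_zero
  have g1 : Continuous fun p : (Fin m → ℂ) × ℝ => deriv (circleMap (0 : ℂ) 1) p.2 := by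
    simp only [deriv_circleMap]
    exact (hc.comp continuous_snd).mul continuous_const
  have g2 : Continuous fun p : (Fin m → ℂ) × ℝ => ((circleMap (0 : ℂ) 1 p.2 - 0) ^ 2)⁻¹ := by
    refine Continuous.inv₀ (((hc.comp continuous_snd).sub continuous_const).pow 2) fun p => ?_
    exact pow_ne_zero _ (hne p.2)
  have g3 : Continuous fun p : (Fin m → ℂ) × ℝ => F (p.1 + circleMap (0 : ℂ) 1 p.2 • v) :=
    hF.continuous.comp (continuous_fst.add ((hc.comp continuous_snd).smul continuous_const))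
  exact g1.mul (g2.mul g3)

private theorem jcn_open {m : ℕ} (P : MvPolynomial (Fin m) ℂ) :
    IsOpen {z : Fin m → ℂ | MvPolynomial.eval z P ≠ 0} := by
  have h : Continuous fun z : Fin m → ℂ => MvPolynomial.eval z P := MvPolynomial.continuous_eval _
  exact isOpen_compl_singleton.preimage h

private theorem jcn_hol {g : Type u} [LieRing g] [LieAlgebra ℂ g] [FiniteDimensional ℂ g]
    {x₀ : g} (C : Ch x₀) : Differentiable ℂ fun z => co (C.Φ z) := by
  rw [differentiable_pi]
  intro i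
  have h : (fun z => co (C.Φ z) i) = fun z => MvPolynomial.eval z (C.pol i) :=
    funext fun z => C.pol_spec i z
  rw [h]
  exact differentiableOn_univ.1
    (AnalyticOnNhd.eval_mvPolynomial (C.pol i)).differentiableOn

private theorem jcn_loc (hTRN : StTRN.{u}) (hHLC : StHLC.{u}) (hORB : StORB.{u})
    (g : Type u) [LieRing g] [LieAlgebra ℂ g] [FiniteDimensional ℂ g]
    [LieAlgebra.IsSemisimple ℂ g] (x₀ : g) (h0 : x₀ ≠ 0)
    (hn : IsNilpotent (LieAlgebra.ad ℂ g x₀))
    (C : Ch x₀) (k : Fin C.m → ℕ) (f : Fin C.m → OO x₀ → ℂ) (hf : ∀ i, f i ∈ Hol x₀ (k i))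
    (x : OO x₀) : ∃ δ : ℝ, 0 < δ ∧ IntegrableOn (fun z =>
      ‖(Matrix.of fun i j : Fin C.m => dz j (fun z => ext (f i) (C.Φ z)) z).det‖ ^ 2)
    {z | MvPolynomial.eval z C.Δ ≠ 0 ∧ size (C.Φ z - x.1) < δ} := by
  -- the frame
  have hrk : rk x.1 = C.m := by
    rw [C.hrk]
    exact (((hORB g).2.2.1 x₀ x.1 x.2).2.1)
  obtain ⟨X, hX⟩ : ∃ X : Fin C.m → g, Frm x.1 X := by
    rw [← hrk]
    exact (hORB g).2.2.2.2.2.1 x.1
  obtain ⟨ε, δ, a, b, τ, hε, hδ, ha, hinj, hτ, hτ2, -, hτ3⟩ := hTRN g x₀ h0 hn C x X hX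
  refine ⟨δ, hδ, ?_⟩
  -- the set W
  obtain ⟨W, hW⟩ : ∃ W, W = {w : Fin C.m → ℂ | ‖w‖ < ε ∧ ext C.p₁ (chart x.1 X w) ≠ 0} := ⟨_, rfl⟩
  rw [← hW] at hτ
  have hOw : ∀ w : Fin C.m → ℂ, Orb x₀ (chart x.1 X w) := fun w => Orb.step _ _ x.2
  have hWo : IsOpen W := by
    have h1 : Continuous fun w : Fin C.m → ℂ => ext C.p₁ (chart x.1 X w) := by
      have h2 := (C.p1mem.1 x C.m X).continuous
      have h3 : (fun w : Fin C.m → ℂ => ext C.p₁ (chart x.1 X w)) =
          fun w : Fin C.m → ℂ => C.p₁ ⟨chart x.1 X w, Orb.step _ _ x.2⟩ := by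
        funext w
        unfold ext
        rw [dif_pos (hOw w)]
      rw [h3]
      exact h2
    rw [hW]
    exact (isOpen_lt continuous_norm continuous_const).inter (isOpen_compl_singleton.preimage h1)
  have hUo := jcn_open C.Δ
  have hτd : ∀ w ∈ W, DifferentiableAt ℂ τ w := fun w hw => hτ.differentiableAt (hWo.mem_nhds hw)
  have hτU : ∀ w ∈ W, MvPolynomial.eval (τ w) C.Δ ≠ 0 := by
    intro w hw
    rw [hW] at hw
    exact (hτ2 w hw.1 hw.2).1
  have hτΦ : ∀ w ∈ W, C.Φ (τ w) = chart x.1 X w := by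
    intro w hw
    rw [hW] at hw
    exact (hτ2 w hw.1 hw.2).2.1
  have hτinj : Set.InjOn τ W := by
    intro w hw w' hw' e
    have e1 := hτΦ w hw
    rw [e, hτΦ w' hw'] at e1
    rw [hW] at hw hw'
    exact hinj w w' hw.1 hw'.1 e1.symm
  -- the image of W contains the set
  have hsub : {z | MvPolynomial.eval z C.Δ ≠ 0 ∧ size (C.Φ z - x.1) < δ} ⊆ τ '' W := by
    rintro z ⟨hz1, hz2⟩
    obtain ⟨w, hw1, hw2, hw3⟩ := hτ3 z hz1 hz2
    refine ⟨w, ?_, hw3⟩
    rw [hW]
    refine ⟨hw1, ?_⟩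
    rw [hw2]
    have hO := C.orb z hz1
    have h4 : ext C.p₁ (C.Φ z) = C.p₁ ⟨C.Φ z, hO⟩ := by
      unfold ext
      rw [dif_pos hO]
    rw [h4]
    exact (C.p1 ⟨C.Φ z, hO⟩).2 ⟨z, hz1, rfl⟩
  refine IntegrableOn.mono_set ?_ hsub
  -- change of variables
  rw [integrableOn_image_iff_integrableOn_abs_det_fderiv_smul volume hWo.measurableSet
    (f' := fun w => (fderiv ℂ τ w).restrictScalars ℝ)
    (fun w hw => ((hτd w hw).hasFDerivAt.restrictScalars ℝ).hasFDerivWithinAt) hτinj]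
  -- the functions in the exponential chart
  have hF : ∀ i, Differentiable ℂ (fun w : Fin C.m → ℂ => ext (f i) (chart x.1 X w)) := by
    intro i
    have h3 : (fun w : Fin C.m → ℂ => ext (f i) (chart x.1 X w)) =
        fun w : Fin C.m → ℂ => f i ⟨chart x.1 X w, Orb.step _ _ x.2⟩ := by
      funext w
      unfold ext
      rw [dif_pos (hOw w)]
    rw [h3]
    exact (hf i).1 x C.m X
  have hH : ∀ i, DifferentiableOn ℂ (fun z => ext (f i) (C.Φ z))
      {z | MvPolynomial.eval z C.Δ ≠ 0} := fun i =>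
    hHLC g x₀ h0 hn C.m _ hUo C.Φ (jcn_hol C).differentiableOn C.orb (k i) (f i) (hf i)
  have key : ∀ w ∈ W, |((fderiv ℂ τ w).restrictScalars ℝ).det| •
      ‖(Matrix.of fun i j : Fin C.m => dz j (fun z => ext (f i) (C.Φ z)) (τ w)).det‖ ^ 2 =
      ‖(Matrix.of fun i j : Fin C.m => fderiv ℂ (fun w : Fin C.m → ℂ =>
        ext (f i) (chart x.1 X w)) w (Pi.single j 1)).det‖ ^ 2 := by
    intro w hw
    have hd : ∀ i, DifferentiableAt ℂ (fun z => ext (f i) (C.Φ z)) (τ w) := fun i =>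
      (hH i).differentiableAt (hUo.mem_nhds (hτU w hw))
    have e1 : (Matrix.of fun i j : Fin C.m => dz j (fun z => ext (f i) (C.Φ z)) (τ w)) =
        Matrix.of fun i j : Fin C.m =>
          (fderiv ℂ (fun z => ext (f i) (C.Φ z)) (τ w)) (Pi.single j 1) := by
      ext i j
      exact jcn_dz j _ _ (hd i)
    have e2 : (Matrix.of fun i j : Fin C.m => fderiv ℂ (fun w : Fin C.m → ℂ =>
        ext (f i) (chart x.1 X w)) w (Pi.single j 1)) = Matrix.of fun i j : Fin C.m =>
          (fderiv ℂ (fun z => ext (f i) (C.Φ z)) (τ w)) ((fderiv ℂ τ w) (Pi.single j 1)) := by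
      ext i j
      rw [Matrix.of_apply, Matrix.of_apply]
      have e3 : (fun w : Fin C.m → ℂ => ext (f i) (chart x.1 X w)) =ᶠ[𝓝 w]
          (fun z => ext (f i) (C.Φ z)) ∘ τ := by
        filter_upwards [hWo.mem_nhds hw] with v hv
        show ext (f i) (chart x.1 X v) = ext (f i) (C.Φ (τ v))
        rw [hτΦ v hv]
      rw [e3.fderiv_eq, fderiv_comp w (hd i) (hτd w hw)]
      rfl
    rw [e1, e2, jcn_mat, jcn_det, norm_mul, mul_pow, smul_eq_mul, mul_comm]
  refine (integrableOn_congr_fun key hWo.measurableSet).2 ?_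
  -- a continuous function on a bounded set
  have hcont : Continuous fun w : Fin C.m → ℂ =>
      ‖(Matrix.of fun i j : Fin C.m => fderiv ℂ (fun w : Fin C.m → ℂ =>
        ext (f i) (chart x.1 X w)) w (Pi.single j 1)).det‖ ^ 2 := by
    refine (Continuous.norm (Continuous.matrix_det ?_)).pow 2
    refine continuous_matrix fun i j => ?_
    exact jcn_cont _ (hF i) _
  have hsub2 : W ⊆ Metric.closedBall 0 ε := by
    intro w hw
    rw [hW] at hw
    rw [mem_closedBall_zero_iff]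
    exact hw.1.le
  exact (hcont.continuousOn.integrableOn_compact (isCompact_closedBall 0 ε)).mono_set hsub2

/-- the minors depend continuously on the coordinates -/
private theorem jcn_mns {g : Type u} [LieRing g] [LieAlgebra ℂ g] [FiniteDimensional ℂ g] (m : ℕ) :
    Continuous fun v : Fin (Module.finrank ℂ g) → ℂ =>
      mns m ((Module.finBasis ℂ g).equivFun.symm v) := by
  unfold mns mnr
  refine continuous_finsetSum _ fun a _ => continuous_finsetSum _ fun b _ =>
    Continuous.norm (Continuous.matrix_det (continuous_matrix fun i j => ?_))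
  have h : Continuous ((Matrix.entryLinearMap ℂ ℂ (a i) (b j)) ∘ₗ
      (LinearMap.toMatrix (Module.finBasis ℂ g) (Module.finBasis ℂ g)).toLinearMap ∘ₗ
      (LieAlgebra.ad ℂ g : g →ₗ[ℂ] Module.End ℂ g) ∘ₗ
      (Module.finBasis ℂ g).equivFun.symm.toLinearMap) := LinearMap.continuous_of_finiteDimensional _
  exact h

theorem hJCN (hTRN : StTRN.{u}) (hCLO : StCLO.{u}) (hHLC : StHLC.{u}) (hORB : StORB.{u}) :
    StJCN.{u} := by
  intro g _ _ _ _ x₀ h0 hn C k f hf r δ hδ
  choose d hd hI using jcn_loc hTRN hHLC hORB g x₀ h0 hn C k f hf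
  have hce : ∀ v : Fin (Module.finrank ℂ g) → ℂ,
      co ((Module.finBasis ℂ g).equivFun.symm v) = v := fun v =>
    (Module.finBasis ℂ g).equivFun.apply_symm_apply v
  have hec : ∀ x : g, (Module.finBasis ℂ g).equivFun.symm (co x) = x := fun x =>
    (Module.finBasis ℂ g).equivFun.symm_apply_apply x
  -- the compact set in coordinates
  obtain ⟨A, hA⟩ : ∃ A, A = {v : Fin (Module.finrank ℂ g) → ℂ |
      Orb x₀ ((Module.finBasis ℂ g).equivFun.symm v) ∧ ∑ i, ‖v i‖ ≤ r ∧
      δ ≤ mns C.m ((Module.finBasis ℂ g).equivFun.symm v)} := ⟨_, rfl⟩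
  have hAc : IsCompact A := by
    refine Metric.isCompact_of_isClosed_isBounded ?_ ?_
    · refine IsSeqClosed.isClosed ?_
      intro y v hy hv
      rw [hA] at hy ⊢
      have h1 : Continuous fun v : Fin (Module.finrank ℂ g) → ℂ => ∑ i, ‖v i‖ := by fun_prop
      have h2 : ∑ i, ‖v i‖ ≤ r :=
        le_of_tendsto ((h1.tendsto v).comp hv) (Eventually.of_forall fun i => (hy i).2.1)
      have h3 : δ ≤ mns C.m ((Module.finBasis ℂ g).equivFun.symm v) :=
        ge_of_tendsto (((jcn_mns (g := g) C.m).tendsto v).comp hv)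
          (Eventually.of_forall fun i => (hy i).2.2)
      refine ⟨?_, h2, h3⟩
      refine ((hCLO g x₀ h0 hn).2 ((Module.finBasis ℂ g).equivFun.symm v)
        (fun i => (Module.finBasis ℂ g).equivFun.symm (y i)) (fun i => (hy i).1) ?_ ?_).1
      · rw [← C.hrk]
        exact lt_of_lt_of_le hδ h3
      · simp only [hce]
        exact hv
    · refine (Metric.isBounded_closedBall (x := (0 : Fin (Module.finrank ℂ g) → ℂ))
        (r := r)).subset ?_
      intro v hv
      rw [hA] at hv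
      have h4 : ∀ i, ‖v i‖ ≤ r := fun i =>
        le_trans (Finset.single_le_sum (f := fun i => ‖v i‖) (fun j _ => norm_nonneg _)
          (Finset.mem_univ i)) hv.2.1
      have h5 : 0 ≤ r := le_trans (Finset.sum_nonneg fun i _ => norm_nonneg _) hv.2.1
      rw [mem_closedBall_zero_iff, pi_norm_le_iff_of_nonneg h5]
      exact h4
  -- the cover
  have hopen : ∀ x : OO x₀, IsOpen {v : Fin (Module.finrank ℂ g) → ℂ |
      ∑ i, ‖v i - co x.1 i‖ < d x} := fun x =>
    isOpen_lt (by fun_prop) continuous_const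
  have hcov : A ⊆ ⋃ x : OO x₀, {v : Fin (Module.finrank ℂ g) → ℂ |
      ∑ i, ‖v i - co x.1 i‖ < d x} := by
    intro v hv
    rw [hA] at hv
    refine Set.mem_iUnion.2 ⟨⟨(Module.finBasis ℂ g).equivFun.symm v, hv.1⟩, ?_⟩
    show ∑ i, ‖v i - co ((Module.finBasis ℂ g).equivFun.symm v) i‖ < _
    rw [hce]
    simp only [sub_self, norm_zero, Finset.sum_const_zero]
    exact hd _
  obtain ⟨t, ht⟩ := hAc.elim_finite_subcover _ hopen hcov
  refine IntegrableOn.mono_set (t := ⋃ x ∈ t, {z | MvPolynomial.eval z C.Δ ≠ 0 ∧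
    size (C.Φ z - x.1) < d x}) ?_ ?_
  · rw [integrableOn_finset_iUnion]
    intro x _
    exact hI x
  · rintro z ⟨h1, h2, h3⟩
    have h4 : co (C.Φ z) ∈ A := by
      rw [hA]
      refine ⟨?_, ?_, ?_⟩
      · rw [hec]
        exact C.orb z h1
      · exact h2
      · rw [hec]
        exact h3
    obtain ⟨x, hx1, hx2⟩ := Set.mem_iUnion₂.1 (ht h4)
    refine Set.mem_iUnion₂.2 ⟨x, hx1, h1, ?_⟩
    have h5 : size (C.Φ z - x.1) = ∑ i, ‖co (C.Φ z) i - co x.1 i‖ := by
      unfold size co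
      simp only [map_sub, Finsupp.coe_sub, Pi.sub_apply]
    rw [h5]
    exact hx2

end Pool.Agent.Helper64.KP
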